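import Pool.Agent.P.MP_7b53ad_ag.Weil

/-!
Tate classes for Weil numbers of degree `2 r ^ k` (`r` prime).

For an abelian variety `A` over the field with `q` elements, `V = H^1(A, Q_l)` carries the
Frobenius `F`, the cohomology ring is the exterior algebra of `V`, and a class of degree `2 i` is a
Tate class when some positive power of Frobenius multiplies it by the same power of `q ^ i`.
-/

namespace Pool.Agent.Results.MP_7b53ad_ag.PrimePowerDim

open Polynomial Pool.Agent.P.MP_7b53ad_ag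

/-- `γ` lies in the `2 i`-th exterior power of `V` and `F ^ n` multiplies it by `q ^ (i n)` for
some `n > 0`. -/
def IsTate {E V : Type} [Field E] [AddCommGroup V] [Module E V] (F : V →ₗ[E] V) (q i : ℕ)
    (γ : ExteriorAlgebra E V) : Prop :=
  γ ∈ ⋀[E]^(2 * i) V ∧
    ∃ n : ℕ, 0 < n ∧ ((ExteriorAlgebra.map F).toLinearMap ^ n) γ = (q : E) ^ (i * n) • γ

theorem result (p a q r k : ℕ) [Fact p.Prime] (ha : 0 < a) (hq : q = p ^ a) (hr : r.Prime)
    (hk : 0 < k) (m : ℚ[X]) (hirr : Irreducible m) (hdeg : m.natDegree = 2 * r ^ k)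
    (hW : ∀ z ∈ m.rootSet ℂ, Complex.normSq z = q)
    (t : ℝ) (n : PadicAlgCl p → ℤ)
    (hn : ∀ α ∈ m.rootSet (PadicAlgCl p),
      (n α : ℝ) = t * (1 - 2 * Real.logb ‖(q : PadicAlgCl p)‖ ‖α‖))
    (hΦ : ∀ Φ : Finset (PadicAlgCl p), (∀ α ∈ Φ, α ∈ m.rootSet (PadicAlgCl p)) →
      (∀ α ∈ m.rootSet (PadicAlgCl p), α ∈ Φ ↔ (q : PadicAlgCl p) / α ∉ Φ) →
      ¬ (r : ℤ) ∣ ∑ α ∈ Φ, n α)
    (E V : Type) [Field E] [CharZero E] [AddCommGroup V] [Module E V] [FiniteDimensional E V]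
    (F : V →ₗ[E] V) (hF : aeval F (m.map (algebraMap ℚ E)) = 0)
    (i : ℕ) (γ : ExteriorAlgebra E V) (hγ : IsTate F q i γ) :
    γ ∈ (Submodule.span E {δ | IsTate F q 1 δ}) ^ i := by
  classical
  have hp : p.Prime := Fact.out
  have hq0 : q ≠ 0 := by rw [hq]; exact pow_ne_zero _ hp.ne_zero
  obtain ⟨K, _, _, _, _, hs⟩ := exists_split m
  have hK0 : CharZero K := algebraRat.charZero K
  let jC : K →+* ℂ := (IsAlgClosed.lift : K →ₐ[ℚ] ℂ).toRingHom
  let jp : K →+* PadicAlgCl p := (IsAlgClosed.lift : K →ₐ[ℚ] PadicAlgCl p).toRingHom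
  let Ω := AlgebraicClosure E
  let jΩ : K →+* Ω := (IsAlgClosed.lift : K →ₐ[ℚ] Ω).toRingHom
  let c : m.rootSet K → m.rootSet K := fun x => ⟨(q : K) / x, (conj_mem jC hq0 hW x).2⟩
  have hqK : (q : K) ≠ 0 := by exact_mod_cast hq0
  have hc (x : m.rootSet K) : (x : K) * c x = q := by
    have := (conj_mem jC hq0 hW x).1
    simp only [c]; field_simp
  have hcc (x : m.rootSet K) : c (c x) = x := by
    have := (conj_mem jC hq0 hW x).1
    apply Subtype.ext
    simp only [c]; field_simp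
  have hc' (x : m.rootSet K) : c x ≠ x := by
    intro h
    have h1 := hc x
    rw [h] at h1
    have h2 : aeval (x : K) (X ^ 2 - C (q : ℚ)) = 0 := by
      simp [sq, h1]
    have h3 := minpoly.dvd ℚ (x : K) h2
    have h4 := minpoly.eq_of_irreducible hirr (mem_rootSet.mp x.2).2
    have h5 := natDegree_le_of_dvd h3 (X_pow_sub_C_ne_zero two_pos _)
    rw [← h4, natDegree_mul_C (inv_ne_zero (leadingCoeff_ne_zero.2 hirr.ne_zero)),
      natDegree_X_pow_sub_C, hdeg] at h5
    have h6 : 1 < r ^ k := Nat.one_lt_pow hk.ne' hr.one_lt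
    omega
  have hcard : Fintype.card (m.rootSet K) = 2 * r ^ k := by
    rw [card_rootSet_eq_natDegree hirr.separable hs, hdeg]
  have hq1 : ‖(q : PadicAlgCl p)‖ ≠ 1 := by
    have h1 : ‖(p : PadicAlgCl p)‖ < 1 := by
      rw [← map_natCast (algebraMap ℚ_[p] (PadicAlgCl p)), PadicAlgCl.norm_extends]
      exact Padic.norm_p_lt_one
    rw [hq, Nat.cast_pow, norm_pow]
    exact (pow_lt_one₀ (norm_nonneg _) h1 ha.ne').ne
  have := pretrans (K := K) hirr
  have hΦ' (Φ : Finset (m.rootSet K)) (h : ∀ x, x ∈ Φ ↔ c x ∉ Φ) :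
      ¬ (r : ℤ) ∣ ∑ x ∈ Φ, n (jp x) := by
    have hinj : Function.Injective fun x : m.rootSet K => jp x :=
      jp.injective.comp Subtype.val_injective
    rw [← Finset.sum_image (f := n) (g := fun x : m.rootSet K => jp x) hinj.injOn]
    refine hΦ _ (fun α hα => ?_) (fun α hα => ?_)
    · obtain ⟨x, -, rfl⟩ := Finset.mem_image.1 hα
      exact (hom_mem_rootSet jp).2 x.2
    · obtain ⟨x, rfl⟩ := exists_hom_eq jp hs hα
      have h1 : (q : PadicAlgCl p) / jp x = jp (c x) := by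
        simp only [c, map_div₀, map_natCast]
      rw [h1, hinj.mem_finset_image (a := x), hinj.mem_finset_image (a := c x), h]
  obtain ⟨hγ1, e, he, hγ2⟩ := hγ
  refine tate_ext F (fun x : m.rootSet K => jΩ x) c hcc hc' (q : E) (fun x => ?_)
    (span_eigen F hirr hF hs jΩ) i e (fun l hl hrel => ?_) _ (fun δ h1 h2 => ?_) hγ1 hγ2
  · rw [← map_mul, hc, map_natCast, map_natCast]
  · refine count_symm jp (by exact_mod_cast hq0) hq1 c hcc hc t (fun x => n (jp x))
      (fun x => hn _ ((hom_mem_rootSet jp).2 x.2))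
      (fun hcG hodd u hu => lattice_zero hr hcard hcc hc' hcG hodd hΦ' hu) i e he l hl ?_
    apply jΩ.injective
    rw [map_natCast] at hrel
    simp only [map_pow, map_natCast, map_list_prod, List.map_map]
    exact hrel
  · exact Submodule.subset_span ⟨h1, 1, one_pos, by simpa using h2⟩

end Pool.Agent.Results.MP_7b53ad_ag.PrimePowerDim
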