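import Pool.Agent.P.MP_7b53ad_ag.AV.Main

/-!
The Tate conjecture for abelian varieties isogenous to a power of an abelian variety `A` whose
Frobenius polynomial is irreducible and satisfies a condition on one orbit of an `r`-group of
automorphisms of its splitting field. The cohomology ring is the exterior algebra of `H^1`.
-/

namespace Pool.Agent.Results.MP_7b53ad_ag.SylowOrbit

open CategoryTheory AlgebraicGeometry Polynomial Pool.Agent.P.MP_7b53ad_ag.AV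
open scoped MonObj

theorem result (k : Type) [Field k] (l : ℕ) [Fact l.Prime] (hl : (l : k) ≠ 0)
    (ζ : ℕ → AlgebraicClosure k)
    (_hζ : ∀ j, IsPrimitiveRoot (ζ j) (l ^ j) ∧ ζ (j + 1) ^ l = ζ j)
    (A B : Over (Spec (CommRingCat.of k))) [GrpObj A] [GrpObj B]
    [IsProper A.hom] [GeometricallyIntegral A.hom] [IsProper B.hom] [GeometricallyIntegral B.hom]
    (J : Type) (h : J → (B ⟶ A)) [∀ j, IsMonHom (h j)]
    (hspan : Spans fun j => pull l (ptsHom (h j)))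
    (p a q g : ℕ) [Fact p.Prime] (ha : 0 < a) (hq : q = p ^ a)
    (σ : AlgebraicClosure k ≃ₐ[k] AlgebraicClosure k)
    (hσ : (Nat.card k = q ∧ ∀ x, σ x = x ^ q) ∨ (chi l σ = q ∧ ∃ (π : A ⟶ A) (_ : IsMonHom π)
      (N : ℕ), 0 < N ∧ ∀ (x : TateMod (Pts A) l) j, ptsHom π (x.val j) = galPts A σ (x.val j) ^ N))
    (m : ℚ[X]) (hirr : Irreducible m) (hdeg : m.natDegree = 2 * g)
    (hW : ∀ z ∈ m.rootSet ℂ, Complex.normSq z = q)
    (hchar : HasChar (pull l (galPts A σ)) (m.map (algebraMap ℚ ℚ_[l])))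
    (ω : ExteriorAlgebra ℚ_[l] (H1 (Pts A) l)) (hω : IsDivClass A l ζ ω) (hωT : IsTate A l 1 ω)
    (hωg : PowNe ω g)
    (K : Type) [Field K] [NumberField K] (hs : (m.map (algebraMap ℚ K)).Splits)
    (jp : K →+* PadicAlgCl p) (t : (K ≃ₐ[ℚ] K) → ℝ) (n : K → ℤ)
    (hn : ∀ α ∈ m.rootSet K,
      (n α : ℝ) = ∑ τ, t τ * (1 - 2 * Real.logb ‖(q : PadicAlgCl p)‖ ‖jp (τ α)‖))
    (Φ : Finset K) (hΦ : ∀ α ∈ Φ, α ∈ m.rootSet K)
    (hΦ' : ∀ α ∈ m.rootSet K, α ∈ Φ ↔ (q : K) / α ∉ Φ)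
    (r : ℕ) (hr : r.Prime) (P : Subgroup (K ≃ₐ[ℚ] K)) (hP : IsPGroup r P)
    (htr : ∀ α ∈ Φ, ∀ β ∈ Φ, ∃ τ ∈ P, τ α = β) (hsum : ¬ (r : ℤ) ∣ ∑ α ∈ Φ, n α)
    (i : ℕ) (θ : ExteriorAlgebra ℚ_[l] (H1 (Pts B) l)) (hθ : IsTate B l i θ) :
    InProd {δ | IsDivClass B l ζ δ} i θ := by
  obtain ⟨_, hchar⟩ := hchar
  have := isCommMonObj_of_isProper_of_geometricallyIntegral A
  rcases hσ with ⟨hk, hσ⟩ | ⟨hχ, π, _, N, hN, hπ⟩
  · have hq0 : q ≠ 0 := by rw [hq]; exact pow_ne_zero _ (Fact.out : p.Prime).ne_zero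
    have : Finite k := Nat.finite_of_card_ne_zero (by rwa [hk])
    have := Fintype.ofFinite k
    rw [Nat.card_eq_fintype_card] at hk
    rw [← hk] at hσ
    exact main_aux k l ζ A B J h hspan p a q r g ha hq hr m hirr hdeg hW K hs jp t n hn Φ hΦ hΦ'
      P hP htr hsum σ (by rw [chi_frob l hl σ hσ, hk]) (frob A) (galPts A σ)
      (fun z => (comp_frob σ hσ z).symm) 1 one_pos
      (fun x j => (pow_one _).symm) hchar ω hω hωT hωg i θ hθ
  · exact main_aux k l ζ A B J h hspan p a q r g ha hq hr m hirr hdeg hW K hs jp t n hn Φ hΦ hΦ'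
      P hP htr hsum σ hχ π (ptsHom π) (fun z => rfl) N hN hπ hchar ω hω hωT
      hωg i θ hθ

end Pool.Agent.Results.MP_7b53ad_ag.SylowOrbit
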