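import Pool.Agent.P.MP_7b53ad_ag.Trop.Transport

/-!
The tropical Hodge conjecture of Mikhalkin and Zharkov for every tropical torus `V / Λ`:
`Λ` is the period lattice (basis `B`) and `N` the lattice of integral slopes (basis `C`).
-/

namespace Pool.Agent.Results.MP_7b53ad_ag.TropicalHodge

open Pool.Agent.P.MP_7b53ad_ag.Trop

theorem result (V : Type) [AddCommGroup V] [Module ℝ V] (g n : ℕ)
    (B C : Module.Basis (Fin g) ℝ V) (Λ N : Submodule ℤ V)
    (hΛ : Λ = Submodule.span ℤ (Set.range B)) (hN : N = Submodule.span ℤ (Set.range C))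
    (w : TensorProduct ℝ (ExteriorAlgebra ℝ V) (ExteriorAlgebra ℝ V))
    (hw : w ∈ classes Λ N (n + 1)) (h0 : eigenwave B w = 0) :
    ∃ Z : (Fin (n + 2) → V) →₀ ExteriorAlgebra ℝ V,
      IsTropicalCycle Λ N Z ∧ cycleClass Z = w := by
  subst hΛ hN
  exact tropical_hodge_general B C hw h0

end Pool.Agent.Results.MP_7b53ad_ag.TropicalHodge
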